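import Pool.Agent.Y522.ML.Var

/-!
# Exact Lagrangian submanifolds of the cotangent bundle of the torus: sheets
-/

set_option autoImplicit false

open Set Filter Topology Metric Function
open scoped ContDiff RealInnerProductSpace

noncomputable section

namespace Pool.Agent.U896.AL

open Pool.Agent.Y522.ML

variable {n : ℕ}

/-- `S` is a primitive of `p dq` on `Λ` -/
structure Prim (Λ : Set (E n × E n)) (S : E n × E n → ℝ) : Prop where
  cont : ContinuousOn S Λ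
  per : ∀ z ∈ Λ, ∀ k : Fin n → ℤ, S (z.1 + latt k, z.2) = S z
  der : ∀ F : E n → E n × E n, ContDiff ℝ ∞ F → (∀ s, F s ∈ Λ) → ∀ s,
    ∃ l : E n →L[ℝ] ℝ, HasFDerivAt (fun s => S (F s)) l s ∧
      ∀ v, l v = ⟪(F s).2, (fderiv ℝ F s v).1⟫

/-- the unit cube -/
def cube (n : ℕ) : Set (E n) :=
  (fun x : Fin n → ℝ => (WithLp.toLp 2 x : E n)) '' (Set.pi univ fun _ => Icc (0 : ℝ) 1)

theorem cube_compact : IsCompact (cube n) :=
  (isCompact_univ_pi fun _ => isCompact_Icc).image (PiLp.continuous_toLp 2 _)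

theorem exists_latt (q : E n) : ∃ k : Fin n → ℤ, q + latt k ∈ cube n := by
  refine ⟨fun i => -⌊q i⌋, ⟨fun i => Int.fract (q i), ?_, ?_⟩⟩
  · intro i _
    exact ⟨Int.fract_nonneg _, (Int.fract_lt_one _).le⟩
  · ext i
    show Int.fract (q i) = q i + ((-⌊q i⌋ : ℤ) : ℝ)
    rw [Int.cast_neg, ← sub_eq_add_neg, Int.self_sub_floor]

/-- local sheets over the base -/
theorem sheet {Λ : Set (E n × E n)} (hΛ : LagT n Λ) {S : E n × E n → ℝ} (hS : Prim Λ S)
    {c δ : ℝ} (hc : 0 < c) (hδ : 0 < δ)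
    (hloc : ∀ z ∈ Λ, ∀ z' ∈ Λ, ‖z - z'‖ < δ → c * ‖z - z'‖ ≤ ‖z.1 - z'.1‖)
    {y : E n × E n} (hy : y ∈ Λ) :
    ∃ G : E n → E n × E n, ContinuousAt G y.1 ∧ G y.1 = y ∧ (∀ x, G x ∈ Λ) ∧
      (∀ᶠ x in 𝓝 y.1, (G x).1 = x) ∧ HasFDerivAt (fun x => S (G x)) (innerSL ℝ y.2) y.1 := by
  obtain ⟨F, hF, hF0, -, hU, himm, -⟩ := hΛ.par y hy
  have hFΛ : ∀ s, F s ∈ Λ := by
    intro s
    obtain ⟨U, -, hU'⟩ := hU univ isOpen_univ
    have : F s ∈ F '' univ := mem_image_of_mem _ (mem_univ s)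
    rw [hU'] at this
    exact this.1
  obtain ⟨l, hl, hlv⟩ := hS.der F hF hFΛ 0
  have hFd : HasFDerivAt F (fderiv ℝ F 0) 0 :=
    (hF.differentiable (by simp)).differentiableAt.hasFDerivAt
  obtain ⟨G, hGd⟩ : ∃ G : E n → E n, G = fun s => (F s).1 := ⟨_, rfl⟩
  have hG : ContDiff ℝ ∞ G := by
    rw [hGd]
    exact contDiff_fst.comp hF
  have hGF : HasFDerivAt G ((ContinuousLinearMap.fst ℝ (E n) (E n)).comp (fderiv ℝ F 0)) 0 := by
    rw [hGd]
    exact (ContinuousLinearMap.fst ℝ (E n) (E n)).hasFDerivAt.comp 0 hFd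
  have hGv : ∀ v, fderiv ℝ G 0 v = (fderiv ℝ F 0 v).1 := by
    intro v
    rw [hGF.fderiv]
    rfl
  have hlow : ∀ v, c * ‖fderiv ℝ F 0 v‖ ≤ ‖fderiv ℝ G 0 v‖ := by
    intro v
    have h1 := hFd.lim_real v
    have h2 := ((hG.differentiable (by simp)).differentiableAt (x := 0)).hasFDerivAt.lim_real v
    refine le_of_tendsto_of_tendsto (h1.norm.const_mul c) h2.norm ?_
    have h3 : Tendsto (fun r : ℝ => ‖F (0 + r⁻¹ • v) - F 0‖) atTop (𝓝 0) := by
      have g1 : Tendsto (fun r : ℝ => (0 : E n) + r⁻¹ • v) atTop (𝓝 0) := by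
        have := (tendsto_inv_atTop_zero (𝕜 := ℝ)).smul_const v
        simpa using this
      have g2 : Tendsto (fun r : ℝ => F (0 + r⁻¹ • v)) atTop (𝓝 (F 0)) :=
        (hF.continuous.tendsto 0).comp g1
      have g3 := (g2.sub_const (F 0)).norm
      rw [sub_self, norm_zero] at g3
      exact g3
    filter_upwards [h3.eventually (gt_mem_nhds hδ)] with r hr
    rw [norm_smul, norm_smul]
    have h4 := mul_le_mul_of_nonneg_left (hloc _ (hFΛ (0 + r⁻¹ • v)) _ (hFΛ 0) hr) (norm_nonneg r)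
    have h5 : G (0 + r⁻¹ • v) - G 0 = (F (0 + r⁻¹ • v)).1 - (F 0).1 := by rw [hGd]
    rw [h5]
    calc c * (‖r‖ * ‖F (0 + r⁻¹ • v) - F 0‖) = ‖r‖ * (c * ‖F (0 + r⁻¹ • v) - F 0‖) := by ring
      _ ≤ _ := h4
  have hi : Injective (fderiv ℝ G 0 : E n →ₗ[ℝ] E n) := by
    rw [← LinearMap.ker_eq_bot, LinearMap.ker_eq_bot']
    intro v hv
    have hv' : fderiv ℝ G 0 v = 0 := hv
    have h1 := hlow v
    rw [hv', norm_zero] at h1
    apply himm 0 v
    have h2 : ‖fderiv ℝ F 0 v‖ ≤ 0 := by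
      by_contra hcon
      push Not at hcon
      have := mul_pos hc hcon
      linarith
    exact norm_le_zero_iff.1 h2
  let e : E n ≃L[ℝ] E n := (LinearEquiv.ofInjectiveEndo _ hi).toContinuousLinearEquiv
  have hee : (e : E n →L[ℝ] E n) = fderiv ℝ G 0 := by
    ext1 v
    rfl
  have he : HasFDerivAt G (e : E n →L[ℝ] E n) 0 := by
    rw [hee]
    exact ((hG.differentiable (by simp)).differentiableAt (x := 0)).hasFDerivAt
  have hn : (∞ : WithTop ℕ∞) ≠ 0 := by simp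
  have hGa : ContDiffAt ℝ ∞ G 0 := hG.contDiffAt
  obtain ⟨I, hId⟩ : ∃ I : E n → E n, I = hGa.localInverse he hn := ⟨_, rfl⟩
  have hG0 : G 0 = y.1 := by rw [hGd]; simp [hF0]
  have hIs : ContDiffAt ℝ ∞ I y.1 := by
    rw [hId, ← hG0]
    exact hGa.to_localInverse he hn
  have hI0 : I y.1 = 0 := by
    rw [hId, ← hG0]
    exact (hGa.hasStrictFDerivAt' he hn).localInverse_apply_image
  have hGI : ∀ᶠ x in 𝓝 y.1, G (I x) = x := by
    rw [hId, ← hG0]
    exact (hGa.hasStrictFDerivAt' he hn).eventually_right_inverse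
  have hId' : HasFDerivAt I (fderiv ℝ I y.1) y.1 :=
    (hIs.differentiableAt (by simp)).hasFDerivAt
  refine ⟨fun x => F (I x), ?_, ?_, fun x => hFΛ _, ?_, ?_⟩
  · exact (hF.continuous.continuousAt).comp hIs.continuousAt
  · simp only [hI0, hF0]
  · filter_upwards [hGI] with x hx
    rw [hGd] at hx
    exact hx
  · have h1 : HasFDerivAt (fun x => S (F (I x))) (l.comp (fderiv ℝ I y.1)) y.1 := by
      have h0 : HasFDerivAt (fun s => S (F s)) l (I y.1) := by rw [hI0]; exact hl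
      exact h0.comp y.1 hId'
    have h2 : l.comp (fderiv ℝ I y.1) = innerSL ℝ y.2 := by
      ext1 v
      rw [ContinuousLinearMap.comp_apply, hlv, ← hGv, hF0, innerSL_apply_apply]
      have h3 : HasFDerivAt (fun x => G (I x)) ((fderiv ℝ G 0).comp (fderiv ℝ I y.1)) y.1 := by
        have h0 : HasFDerivAt G (fderiv ℝ G 0) (I y.1) := by
          rw [hI0]
          exact ((hG.differentiable (by simp)).differentiableAt (x := 0)).hasFDerivAt
        exact h0.comp y.1 hId'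
      have h4 : HasFDerivAt (fun x => G (I x)) (ContinuousLinearMap.id ℝ (E n)) y.1 :=
        (hasFDerivAt_id y.1).congr_of_eventuallyEq hGI
      have h5 := congrArg (fun L : E n →L[ℝ] E n => L v) (h3.unique h4)
      simp only [ContinuousLinearMap.comp_apply, ContinuousLinearMap.id_apply] at h5
      rw [h5]
    rw [← h2]
    exact h1

/-- the projection of an exact Lagrangian submanifold which is locally a Lipschitz graph is
injective -/
theorem inj {Λ : Set (E n × E n)} (hΛ : LagT n Λ) {S : E n × E n → ℝ} (hS : Prim Λ S)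
    {c δ : ℝ} (hc : 0 < c) (hδ : 0 < δ)
    (hloc : ∀ z ∈ Λ, ∀ z' ∈ Λ, ‖z - z'‖ < δ → c * ‖z - z'‖ ≤ ‖z.1 - z'.1‖) :
    ∀ z ∈ Λ, ∀ z' ∈ Λ, z.1 = z'.1 → z = z' := by
  have hsep : ∀ z ∈ Λ, ∀ z' ∈ Λ, z.1 = z'.1 → z ≠ z' → δ ≤ ‖z - z'‖ := by
    intro z hz z' hz' h1 h2
    by_contra h3
    push Not at h3
    have h4 := hloc z hz z' hz' h3
    rw [h1, sub_self, norm_zero] at h4
    have h5 : 0 < ‖z - z'‖ := norm_pos_iff.2 (sub_ne_zero.2 h2)
    have := mul_pos hc h5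
    linarith
  by_contra hcon
  push Not at hcon
  obtain ⟨z₀, hz₀, z₁, hz₁, h01, hne⟩ := hcon
  obtain ⟨R, hR⟩ := hΛ.bdd
  let W : Set ((E n × E n) × (E n × E n)) :=
    {x | x.1 ∈ Λ ∧ x.2 ∈ Λ ∧ x.1.1 = x.2.1 ∧ δ ≤ ‖x.1 - x.2‖ ∧ x.1.1 ∈ cube n}
  have hWc : IsCompact W := by
    have hK : IsCompact ((cube n ×ˢ closedBall (0 : E n) R) ×ˢ (cube n ×ˢ closedBall (0 : E n) R)) :=
      (cube_compact.prod (isCompact_closedBall _ _)).prod
        (cube_compact.prod (isCompact_closedBall _ _))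
    refine hK.of_isClosed_subset ?_ ?_
    · have k1 : IsClosed {x : (E n × E n) × (E n × E n) | x.1.1 = x.2.1} :=
        isClosed_eq (by fun_prop) (by fun_prop)
      have k2 : IsClosed {x : (E n × E n) × (E n × E n) | δ ≤ ‖x.1 - x.2‖} :=
        isClosed_le (by fun_prop) (by fun_prop)
      have k3 : IsClosed ((fun x : (E n × E n) × (E n × E n) => x.1.1) ⁻¹' cube n) :=
        cube_compact.isClosed.preimage (by fun_prop)
      exact (hΛ.closed.preimage continuous_fst).inter ((hΛ.closed.preimage continuous_snd).inter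
        (k1.inter (k2.inter k3)))
    · rintro x ⟨h1, h2, h3, -, h5⟩
      refine ⟨⟨h5, ?_⟩, ⟨?_, ?_⟩⟩
      · rw [mem_closedBall_zero_iff]; exact hR _ h1
      · rw [← h3]; exact h5
      · rw [mem_closedBall_zero_iff]; exact hR _ h2
  have hmem : ∀ z ∈ Λ, ∀ z' ∈ Λ, z.1 = z'.1 → z ≠ z' → ∃ k : Fin n → ℤ,
      ((z.1 + latt k, z.2), (z'.1 + latt k, z'.2)) ∈ W := by
    intro z hz z' hz' h1 h2
    obtain ⟨k, hk⟩ := exists_latt z.1
    refine ⟨k, hΛ.per z hz k, hΛ.per z' hz' k, ?_, ?_, hk⟩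
    · show z.1 + latt k = z'.1 + latt k
      rw [h1]
    · have h3 : ((z.1 + latt k, z.2) : E n × E n) - (z'.1 + latt k, z'.2) = z - z' := by
        refine Prod.ext ?_ rfl
        show z.1 + latt k - (z'.1 + latt k) = z.1 - z'.1
        abel
      show δ ≤ ‖((z.1 + latt k, z.2) : E n × E n) - (z'.1 + latt k, z'.2)‖
      rw [h3]
      exact hsep z hz z' hz' h1 h2
  obtain ⟨k₀, hk₀⟩ := hmem z₀ hz₀ z₁ hz₁ h01 hne
  have hcont : ContinuousOn (fun x : (E n × E n) × (E n × E n) => S x.1 - S x.2) W :=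
    (hS.cont.comp continuous_fst.continuousOn (fun x hx => hx.1)).sub
      (hS.cont.comp continuous_snd.continuousOn (fun x hx => hx.2.1))
  obtain ⟨x, hx, hmax⟩ := hWc.exists_isMaxOn ⟨_, hk₀⟩ hcont
  have hmax' : ∀ z ∈ Λ, ∀ z' ∈ Λ, z.1 = z'.1 → z ≠ z' → S z - S z' ≤ S x.1 - S x.2 := by
    intro z hz z' hz' h1 h2
    obtain ⟨k, hk⟩ := hmem z hz z' hz' h1 h2
    have h3 : S (z.1 + latt k, z.2) - S (z'.1 + latt k, z'.2) ≤ S x.1 - S x.2 := hmax hk
    rw [hS.per z hz, hS.per z' hz'] at h3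
    exact h3
  obtain ⟨hx1, hx2, hx3, hx4, -⟩ := hx
  have hxne : x.1 ≠ x.2 := by
    intro h
    rw [h, sub_self, norm_zero] at hx4
    linarith
  obtain ⟨G, g1, g2, g3, g4, g5⟩ := sheet hΛ hS hc hδ hloc hx1
  obtain ⟨G', g1', g2', g3', g4', g5'⟩ := sheet hΛ hS hc hδ hloc hx2
  rw [← hx3] at g1' g2' g4' g5'
  have hne' : ∀ᶠ u in 𝓝 x.1.1, G u ≠ G' u := by
    have h1 : Tendsto (fun u => (G u, G' u)) (𝓝 x.1.1) (𝓝 (x.1, x.2)) := by
      have a1 : Tendsto G (𝓝 x.1.1) (𝓝 x.1) := by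
        have := g1.tendsto
        rwa [g2] at this
      have a2 : Tendsto G' (𝓝 x.1.1) (𝓝 x.2) := by
        have := g1'.tendsto
        rwa [g2'] at this
      exact a1.prodMk_nhds a2
    have h2 : IsOpen {x : (E n × E n) × (E n × E n) | x.1 ≠ x.2} :=
      isOpen_ne_fun continuous_fst continuous_snd
    exact h1.eventually (h2.mem_nhds hxne)
  have hlm : IsLocalMax (fun u => S (G u) - S (G' u)) x.1.1 := by
    filter_upwards [g4, g4', hne'] with u h1 h2 h3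
    show S (G u) - S (G' u) ≤ S (G x.1.1) - S (G' x.1.1)
    rw [g2, g2']
    exact hmax' _ (g3 u) _ (g3' u) (by rw [h1, h2]) h3
  have h5 := hlm.hasFDerivAt_eq_zero (g5.sub g5')
  have h6 : x.1.2 - x.2.2 = 0 := by
    have h7 := congrArg (fun L : E n →L[ℝ] ℝ => L (x.1.2 - x.2.2)) h5
    simp only [ContinuousLinearMap.sub_apply, innerSL_apply_apply,
      ContinuousLinearMap.zero_apply] at h7
    rw [← inner_sub_left] at h7
    exact (inner_self_eq_zero (𝕜 := ℝ)).1 h7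
  exact hxne (Prod.ext hx3 (sub_eq_zero.1 h6))

/-- an exact Lagrangian submanifold which is locally a Lipschitz graph is a Lipschitz graph -/
theorem glob {Λ : Set (E n × E n)} (hΛ : LagT n Λ) {S : E n × E n → ℝ} (hS : Prim Λ S)
    {c δ : ℝ} (hc : 0 < c) (hδ : 0 < δ)
    (hloc : ∀ z ∈ Λ, ∀ z' ∈ Λ, ‖z - z'‖ < δ → c * ‖z - z'‖ ≤ ‖z.1 - z'.1‖) :
    ∃ c' : ℝ, 0 < c' ∧ ∀ z ∈ Λ, ∀ z' ∈ Λ, c' * ‖z - z'‖ ≤ ‖z.1 - z'.1‖ := by
  have hinj := inj hΛ hS hc hδ hloc
  obtain ⟨R, hR⟩ := hΛ.bdd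
  obtain ⟨z₀, hz₀⟩ := hΛ.nonempty
  have hR0 : 0 ≤ R := (norm_nonneg _).trans (hR _ hz₀)
  let W : Set ((E n × E n) × (E n × E n)) :=
    {x | x.1 ∈ Λ ∧ x.2 ∈ Λ ∧ ‖x.2.1 - x.1.1‖ ≤ 1 ∧ δ ≤ ‖x.1 - x.2‖ ∧ x.1.1 ∈ cube n}
  have hWc : IsCompact W := by
    obtain ⟨B, hB⟩ := (cube_compact (n := n)).isBounded.exists_norm_le
    have hK : IsCompact ((cube n ×ˢ closedBall (0 : E n) R) ×ˢ
        (closedBall (0 : E n) (B + 1) ×ˢ closedBall (0 : E n) R)) :=
      (cube_compact.prod (isCompact_closedBall _ _)).prod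
        ((isCompact_closedBall _ _).prod (isCompact_closedBall _ _))
    refine hK.of_isClosed_subset ?_ ?_
    · have k1 : IsClosed {x : (E n × E n) × (E n × E n) | ‖x.2.1 - x.1.1‖ ≤ 1} :=
        isClosed_le (by fun_prop) (by fun_prop)
      have k2 : IsClosed {x : (E n × E n) × (E n × E n) | δ ≤ ‖x.1 - x.2‖} :=
        isClosed_le (by fun_prop) (by fun_prop)
      have k3 : IsClosed ((fun x : (E n × E n) × (E n × E n) => x.1.1) ⁻¹' cube n) :=
        cube_compact.isClosed.preimage (by fun_prop)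
      exact (hΛ.closed.preimage continuous_fst).inter ((hΛ.closed.preimage continuous_snd).inter
        (k1.inter (k2.inter k3)))
    · rintro x ⟨h1, h2, h3, -, h5⟩
      refine ⟨⟨h5, ?_⟩, ⟨?_, ?_⟩⟩
      · rw [mem_closedBall_zero_iff]; exact hR _ h1
      · rw [mem_closedBall_zero_iff]
        have h6 := hB _ h5
        have h7 := norm_add_le (x.2.1 - x.1.1) x.1.1
        rw [sub_add_cancel] at h7
        linarith
      · rw [mem_closedBall_zero_iff]; exact hR _ h2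
  obtain ⟨μ, hμ, hμW⟩ : ∃ μ : ℝ, 0 < μ ∧ ∀ x ∈ W, μ ≤ ‖x.1.1 - x.2.1‖ := by
    rcases W.eq_empty_or_nonempty with h0 | h0
    · refine ⟨1, one_pos, fun x hx => ?_⟩
      rw [h0] at hx
      exact absurd hx (notMem_empty _)
    · have hf : Continuous fun x : (E n × E n) × (E n × E n) => ‖x.1.1 - x.2.1‖ := by fun_prop
      obtain ⟨x, hx, hmin⟩ := hWc.exists_isMinOn h0 hf.continuousOn
      refine ⟨‖x.1.1 - x.2.1‖, ?_, fun x' hx' => hmin hx'⟩
      rw [norm_pos_iff, sub_ne_zero]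
      intro h1
      have h2 := hinj _ hx.1 _ hx.2.1 h1
      have h3 := hx.2.2.2.1
      rw [h2, sub_self, norm_zero] at h3
      linarith
  have hfar : ∀ z ∈ Λ, ∀ z' ∈ Λ, δ ≤ ‖z - z'‖ → min μ 1 ≤ ‖z.1 - z'.1‖ := by
    intro z hz z' hz' h1
    rcases le_or_gt ‖z.1 - z'.1‖ 1 with h2 | h2
    · obtain ⟨k, hk⟩ := exists_latt z.1
      have e1 : z.1 + latt k - (z'.1 + latt k) = z.1 - z'.1 := by abel
      have e2 : z'.1 + latt k - (z.1 + latt k) = z'.1 - z.1 := by abel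
      have h3 : ((z.1 + latt k, z.2), (z'.1 + latt k, z'.2)) ∈ W := by
        refine ⟨hΛ.per z hz k, hΛ.per z' hz' k, ?_, ?_, hk⟩
        · show ‖z'.1 + latt k - (z.1 + latt k)‖ ≤ 1
          rw [e2, norm_sub_rev]
          exact h2
        · have h3 : ((z.1 + latt k, z.2) : E n × E n) - (z'.1 + latt k, z'.2) = z - z' :=
            Prod.ext e1 rfl
          show δ ≤ ‖((z.1 + latt k, z.2) : E n × E n) - (z'.1 + latt k, z'.2)‖
          rw [h3]
          exact h1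
      have h4 := hμW ((z.1 + latt k, z.2), (z'.1 + latt k, z'.2)) h3
      have h5 : μ ≤ ‖z.1 + latt k - (z'.1 + latt k)‖ := h4
      rw [e1] at h5
      exact (min_le_left _ _).trans h5
    · exact (min_le_right _ _).trans h2.le
  have hm : 0 < min μ 1 := lt_min hμ one_pos
  obtain ⟨a, ha⟩ : ∃ a : ℝ, a = 1 + 2 * R / min μ 1 := ⟨_, rfl⟩
  have ha0 : 0 < a := by rw [ha]; positivity
  refine ⟨min c (1 / a), lt_min hc (by positivity), fun z hz z' hz' => ?_⟩
  rcases lt_or_ge ‖z - z'‖ δ with h1 | h1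
  · exact (mul_le_mul_of_nonneg_right (min_le_left _ _) (norm_nonneg _)).trans
      (hloc z hz z' hz' h1)
  · refine (mul_le_mul_of_nonneg_right (min_le_right _ _) (norm_nonneg _)).trans ?_
    rw [div_mul_eq_mul_div, one_mul, div_le_iff₀ ha0]
    have h2 := hfar z hz z' hz' h1
    have h3 : ‖z - z'‖ ≤ ‖z.1 - z'.1‖ + 2 * R := by
      rw [Prod.norm_def]
      refine max_le ?_ ?_
      · show ‖z.1 - z'.1‖ ≤ _
        linarith
      · show ‖z.2 - z'.2‖ ≤ _
        refine (norm_sub_le _ _).trans ?_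
        linarith [hR z hz, hR z' hz', norm_nonneg (z.1 - z'.1)]
    have h4 : 2 * R ≤ ‖z.1 - z'.1‖ * (2 * R / min μ 1) := by
      have h5 : 2 * R = min μ 1 * (2 * R / min μ 1) := by field_simp
      conv_lhs => rw [h5]
      exact mul_le_mul_of_nonneg_right h2 (by positivity)
    rw [ha]
    linarith
end Pool.Agent.U896.AL
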