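import Pool.Agent.U896.AL.A

/-!
# Moving an exact Lagrangian submanifold which is locally one-sided with respect to a Hamiltonian
-/

set_option autoImplicit false

open Set Filter Topology Metric Function
open scoped ContDiff RealInnerProductSpace

noncomputable section

namespace Pool.Agent.U896.AL

open Pool.Agent.Y522.ML

variable {n : ℕ}

theorem perD {W : Type} [NormedAddCommGroup W] [NormedSpace ℝ W] {f : E n × E n → W}
    (hp : ∀ w (k : Fin n → ℤ), f (w.1 + latt k, w.2) = f w) (w : E n × E n) (k : Fin n → ℤ) :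
    fderiv ℝ f (w.1 + latt k, w.2) = fderiv ℝ f w := by
  have h0 : ∀ y : E n × E n, y + (latt k, (0 : E n)) = (y.1 + latt k, y.2) := fun y =>
    Prod.ext rfl (add_zero _)
  have h1 : (fun y => f (y + (latt k, (0 : E n)))) = f := by
    funext y
    rw [h0, hp]
  have h2 := fderiv_comp_add_right (𝕜 := ℝ) (f := f) (x := w) ((latt k, (0 : E n)) : E n × E n)
  rw [h1, h0] at h2
  exact h2.symm

theorem zeroD {W : Type} [NormedAddCommGroup W] [NormedSpace ℝ W] {f : E n × E n → W} {R : ℝ}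
    (h0 : ∀ w : E n × E n, R < ‖w.2‖ → f w = 0) (w : E n × E n) (hw : R < ‖w.2‖) :
    fderiv ℝ f w = 0 := by
  have h1 : IsOpen {w : E n × E n | R < ‖w.2‖} := isOpen_lt (by fun_prop) (by fun_prop)
  have h2 : f =ᶠ[𝓝 w] fun _ => 0 := by
    filter_upwards [h1.mem_nhds hw] with y hy
    exact h0 y hy
  rw [h2.fderiv_eq]
  exact fderiv_const_apply _

/-- the second difference -/
theorem diff2 {f : E n × E n → E n} (hf : ContDiff ℝ ∞ f)
    (hp : ∀ w (k : Fin n → ℤ), f (w.1 + latt k, w.2) = f w) {R : ℝ}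
    (h0 : ∀ w : E n × E n, R < ‖w.2‖ → f w = 0) :
    ∃ L : ℝ, 0 ≤ L ∧ ∀ z z' τ : E n × E n,
      ‖(f (z + τ) - f (z' + τ)) - (f z - f z')‖ ≤ L * ‖τ‖ * ‖z - z'‖ := by
  have hD : ContDiff ℝ ∞ (fderiv ℝ f) := hf.fderiv_right (by simp)
  obtain ⟨L, hL, hb⟩ := bddper (n := n) (fderiv ℝ (fderiv ℝ f)) (hD.continuous_fderiv (by simp))
    (perD (perD hp)) R (fun w hw => zeroD (fun w hw => zeroD h0 w hw) w hw)
  have hlip : ∀ w w', ‖fderiv ℝ f w - fderiv ℝ f w'‖ ≤ L * ‖w - w'‖ := by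
    intro w w'
    exact Convex.norm_image_sub_le_of_norm_fderiv_le (𝕜 := ℝ) (s := univ) (fun x _ =>
      (hD.differentiable (by simp)).differentiableAt) (fun x _ => hb x)
      convex_univ (mem_univ _) (mem_univ _)
  refine ⟨L, hL, fun z z' τ => ?_⟩
  have hfd : ∀ y, HasFDerivAt f (fderiv ℝ f y) y := fun y =>
    (hf.differentiable (by simp)).differentiableAt.hasFDerivAt
  have hg : ∀ y, HasFDerivAt (fun y => f (y + τ) - f y) (fderiv ℝ f (y + τ) - fderiv ℝ f y) y := by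
    intro y
    have h1 : HasFDerivAt (fun y => f (y + τ)) (fderiv ℝ f (y + τ)) y := by
      have h0 := (hfd (y + τ)).comp y ((hasFDerivAt_id y).add_const τ)
      rw [ContinuousLinearMap.comp_id] at h0
      exact h0
    exact h1.sub (hfd y)
  have h2 := Convex.norm_image_sub_le_of_norm_hasFDerivWithin_le (𝕜 := ℝ) (s := univ)
    (f := fun y => f (y + τ) - f y) (C := L * ‖τ‖) (x := z') (y := z)
    (fun y _ => (hg y).hasFDerivWithinAt) (fun y _ => by
      have := hlip (y + τ) y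
      rwa [add_sub_cancel_left] at this) convex_univ (mem_univ _) (mem_univ _)
  have h3 : (f (z + τ) - f (z' + τ)) - (f z - f z') =
      (f (z + τ) - f z) - (f (z' + τ) - f z') := by abel
  rw [h3]
  exact h2

theorem arith2 {X Y D d β t M L b C : ℝ} (ht : 0 < t) (ht1 : t ≤ 1) (hb : 0 < b) (hd : 0 ≤ d)
    (hX : 0 ≤ X) (hY0 : 0 ≤ Y) (hD : 0 ≤ D) (hβ : 0 ≤ β) (hC0 : 0 ≤ C) (hL0 : 0 ≤ L) (hM0 : 0 ≤ M)
    (hM : t * M ≤ 1 / 2) (hC : 4 * t * C ≤ 1) (hL : 8 * t * (L * M + M * M) ≤ b)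
    (hLM : 8 * t * (L * M) ≤ 1)
    (h1 : Y ≤ X + t * (L * (t * M) * (D + d) + M * (t * M * (X + d))))
    (h2 : 1 / 2 * D ^ 2 + t ^ 2 * β ^ 2 ≤ Y ^ 2) (h3 : b * d ≤ β + C * D) :
    t * b * d ≤ 8 * X := by
  have a1 : t * β ≤ Y := by
    refine le_of_sq_le_sq ?_ hY0
    nlinarith [sq_nonneg D]
  have a2 : D ≤ 2 * Y := by
    refine le_of_sq_le_sq ?_ (by positivity)
    nlinarith [sq_nonneg (t * β), sq_nonneg Y]
  have a3 : t * (b * d) ≤ t * (β + C * D) := mul_le_mul_of_nonneg_left h3 ht.le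
  have a4 : t * C * D ≤ t * C * (2 * Y) := mul_le_mul_of_nonneg_left a2 (by positivity)
  have a5 : t * C * (2 * Y) ≤ 1 / 2 * Y := by nlinarith
  have a6 : t * b * d ≤ 2 * Y := by nlinarith
  have a7 : t * (L * (t * M) * D) ≤ 1 / 4 * Y := by
    have g1 : t * (L * (t * M) * D) = t * (t * (L * M) * D) := by ring
    have g2 : t * (L * M) * D ≤ t * (L * M) * (2 * Y) :=
      mul_le_mul_of_nonneg_left a2 (by positivity)
    have g3 : t * (L * M) * (2 * Y) ≤ 1 / 4 * Y := by nlinarith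
    have g4 : t * (t * (L * M) * D) ≤ 1 * (t * (L * M) * D) :=
      mul_le_mul_of_nonneg_right ht1 (by positivity)
    linarith
  have a8 : t * (M * (t * M * X)) ≤ 1 / 4 * X := by
    have g1 : t * (M * (t * M * X)) = (t * M) * (t * M) * X := by ring
    have g2 : (t * M) * (t * M) ≤ 1 / 2 * (1 / 2) :=
      mul_le_mul hM hM (by positivity) (by norm_num)
    rw [g1]
    nlinarith
  have a9 : t * (L * (t * M) * d) + t * (M * (t * M * d)) ≤ 1 / 4 * Y := by
    have g1 : t * (L * (t * M) * d) + t * (M * (t * M * d)) = 1 / 8 * (8 * t * (L * M + M * M)) *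
        (t * d) := by ring
    have g2 : 8 * t * (L * M + M * M) * (t * d) ≤ b * (t * d) :=
      mul_le_mul_of_nonneg_right hL (by positivity)
    rw [g1]
    nlinarith
  have a10 : Y ≤ X + 1 / 4 * Y + 1 / 4 * X + 1 / 4 * Y := by
    have g1 : t * (L * (t * M) * (D + d) + M * (t * M * (X + d))) =
        t * (L * (t * M) * D) + t * (M * (t * M * X)) +
          (t * (L * (t * M) * d) + t * (M * (t * M * d))) := by ring
    rw [g1] at h1
    linarith
  linarith

/-- the primitive of the moved submanifold -/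
theorem prim_push {Λ : Set (E n × E n)} {S : E n × E n → ℝ} (hS : Prim Λ S)
    (K : E n × E n → ℝ) (hK : ContDiff ℝ ∞ K) {k₁ k₂ : E n × E n → E n}
    (s2 : ContDiff ℝ ∞ k₂)
    (hk : ∀ w a, fderiv ℝ K w a = ⟪k₁ w, a.1⟫ + ⟪k₂ w, a.2⟫)
    (p2 : ∀ w (k : Fin n → ℤ), k₂ (w.1 + latt k, w.2) = k₂ w)
    (pK : ∀ w (k : Fin n → ℤ), K (w.1 + latt k, w.2) = K w)
    {t : ℝ} (Φ : E n × E n ≃ E n × E n) (P2 : ContDiff ℝ ∞ Φ.symm)
    (P3 : ∀ z (k : Fin n → ℤ), Φ (z.1 + latt k, z.2) = ((Φ z).1 + latt k, (Φ z).2))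
    (P5 : ∀ z, ∃ w : E n × E n, w.2 = z.2 ∧ w.1 = z.1 + t • k₂ w ∧ Φ z = (w.1, w.2 - t • k₁ w)) :
    ∃ S' : E n × E n → ℝ, Prim (Φ '' Λ) S' := by
  have P3' : ∀ z (k : Fin n → ℤ),
      Φ.symm (z.1 + latt k, z.2) = ((Φ.symm z).1 + latt k, (Φ.symm z).2) := by
    intro z k
    rw [Equiv.symm_apply_eq, P3]
    simp
  have hmem : ∀ y ∈ Φ '' Λ, Φ.symm y ∈ Λ := by
    rintro _ ⟨z, hz, rfl⟩
    rw [Equiv.symm_apply_apply]
    exact hz
  obtain ⟨w, hw⟩ : ∃ w : E n × E n → E n × E n, w = fun y => (y.1, (Φ.symm y).2) := ⟨_, rfl⟩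
  have hws : ContDiff ℝ ∞ w := by
    rw [hw]
    exact contDiff_fst.prodMk (contDiff_snd.comp P2)
  have hrel : ∀ y, (Φ.symm y).1 = (w y).1 - t • k₂ (w y) ∧ y.2 = (w y).2 - t • k₁ (w y) := by
    intro y
    obtain ⟨u, u1, u2, u3⟩ := P5 (Φ.symm y)
    rw [Equiv.apply_symm_apply] at u3
    have h1 : u = w y := by
      rw [hw]
      refine Prod.ext ?_ u1
      rw [u3]
    rw [← h1]
    refine ⟨?_, ?_⟩
    · rw [u2]
      abel
    · conv_lhs => rw [u3]
  refine ⟨fun y => S (Φ.symm y) + t * (⟪(w y).2, k₂ (w y)⟫ - K (w y)), ?_, ?_, ?_⟩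
  · refine (hS.cont.comp P2.continuous.continuousOn hmem).add (Continuous.continuousOn ?_)
    have h1 := hws.continuous
    have h2 := s2.continuous
    have h3 := hK.continuous
    fun_prop
  · intro y hy k
    have h1 : w (y.1 + latt k, y.2) = ((w y).1 + latt k, (w y).2) := by
      rw [hw]
      simp only [P3']
    show S (Φ.symm (y.1 + latt k, y.2)) + t * (⟪(w (y.1 + latt k, y.2)).2,
      k₂ (w (y.1 + latt k, y.2))⟫ - K (w (y.1 + latt k, y.2))) = _
    rw [h1, P3', hS.per _ (hmem y hy), p2, pK]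
  · intro F hF hFm s
    have hF' : ContDiff ℝ ∞ (fun s => Φ.symm (F s)) := P2.comp hF
    obtain ⟨l, hl, hlv⟩ := hS.der (fun s => Φ.symm (F s)) hF' (fun s => hmem _ (hFm s)) s
    have hW : ContDiff ℝ ∞ (fun s => w (F s)) := hws.comp hF
    obtain ⟨A, hA⟩ : ∃ A, A = fderiv ℝ (fun s => w (F s)) s := ⟨_, rfl⟩
    have dW : HasFDerivAt (fun s => w (F s)) A s := by
      rw [hA]
      exact (hW.differentiable (by simp)).differentiableAt.hasFDerivAt
    obtain ⟨Bk, hBk⟩ : ∃ Bk, Bk = fderiv ℝ k₂ (w (F s)) := ⟨_, rfl⟩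
    have dk : HasFDerivAt k₂ Bk (w (F s)) := by
      rw [hBk]
      exact (s2.differentiable (by simp)).differentiableAt.hasFDerivAt
    have dkW : HasFDerivAt (fun s => k₂ (w (F s))) (Bk.comp A) s := dk.comp s dW
    have dK : HasFDerivAt (fun s => K (w (F s))) ((fderiv ℝ K (w (F s))).comp A) s :=
      ((hK.differentiable (by simp)).differentiableAt.hasFDerivAt).comp s dW
    have dW2 : HasFDerivAt (fun s => (w (F s)).2)
        ((ContinuousLinearMap.snd ℝ (E n) (E n)).comp A) s :=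
      (ContinuousLinearMap.snd ℝ (E n) (E n)).hasFDerivAt.comp s dW
    have dI := dW2.inner ℝ dkW
    have dF : HasFDerivAt F (fderiv ℝ F s) s :=
      (hF.differentiable (by simp)).differentiableAt.hasFDerivAt
    refine ⟨_, hl.add ((dI.sub dK).const_mul t), fun v => ?_⟩
    -- first components
    have e1 : ∀ v, (fderiv ℝ F s v).1 = (A v).1 := by
      intro v
      have h1 : HasFDerivAt (fun s => (F s).1)
          ((ContinuousLinearMap.fst ℝ (E n) (E n)).comp (fderiv ℝ F s)) s :=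
        (ContinuousLinearMap.fst ℝ (E n) (E n)).hasFDerivAt.comp s dF
      have h2 : HasFDerivAt (fun s => (w (F s)).1)
          ((ContinuousLinearMap.fst ℝ (E n) (E n)).comp A) s :=
        (ContinuousLinearMap.fst ℝ (E n) (E n)).hasFDerivAt.comp s dW
      have h3 : (fun s => (w (F s)).1) = fun s => (F s).1 := by
        rw [hw]
      rw [h3] at h2
      exact congrArg (fun L : E n →L[ℝ] E n => L v) (h1.unique h2)
    have e2 : ∀ v, (fderiv ℝ (fun s => Φ.symm (F s)) s v).1 = (A v).1 - t • Bk (A v) := by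
      intro v
      have h0 : HasFDerivAt (fun s => Φ.symm (F s)) (fderiv ℝ (fun s => Φ.symm (F s)) s) s :=
        (hF'.differentiable (by simp)).differentiableAt.hasFDerivAt
      have h1 : HasFDerivAt (fun s => (Φ.symm (F s)).1)
          ((ContinuousLinearMap.fst ℝ (E n) (E n)).comp (fderiv ℝ (fun s => Φ.symm (F s)) s)) s :=
        (ContinuousLinearMap.fst ℝ (E n) (E n)).hasFDerivAt.comp s h0
      have h2 : HasFDerivAt (fun s => (w (F s)).1 - t • k₂ (w (F s)))
          ((ContinuousLinearMap.fst ℝ (E n) (E n)).comp A - t • Bk.comp A) s :=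
        ((ContinuousLinearMap.fst ℝ (E n) (E n)).hasFDerivAt.comp s dW).sub (dkW.const_smul t)
      have h3 : (fun s => (Φ.symm (F s)).1) = fun s => (w (F s)).1 - t • k₂ (w (F s)) :=
        funext fun s => (hrel (F s)).1
      rw [h3] at h1
      exact congrArg (fun L : E n →L[ℝ] E n => L v) (h1.unique h2)
    have e3 : (Φ.symm (F s)).2 = (w (F s)).2 := by rw [hw]
    have hlv' := hlv v
    rw [e2, e3] at hlv'
    have e4 : (F s).2 = (w (F s)).2 - t • k₁ (w (F s)) := (hrel (F s)).2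
    rw [e1, e4]
    have e5 := hk (w (F s)) (A v)
    have e6 : (l + t • ((fderivInnerCLM ℝ ((w (F s)).2, k₂ (w (F s)))).comp
        (((ContinuousLinearMap.snd ℝ (E n) (E n)).comp A).prod (Bk.comp A)) -
        (fderiv ℝ K (w (F s))).comp A)) v = l v + t * (⟪(w (F s)).2, Bk (A v)⟫ +
          ⟪(A v).2, k₂ (w (F s))⟫ - fderiv ℝ K (w (F s)) (A v)) := by
      simp [fderivInnerCLM_apply]
    refine e6.trans ?_
    rw [hlv', e5, inner_sub_right, inner_smul_right, inner_sub_left, inner_smul_left,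
      real_inner_comm (k₂ (w (F s))) (A v).2]
    simp only [RCLike.conj_to_real]
    ring

end Pool.Agent.U896.AL
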