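import Pool.Agent.U896.AL.B

/-!
# Exact Lagrangian submanifolds of the cotangent bundle of the torus which are locally one-sided
with respect to a Hamiltonian
-/

set_option autoImplicit false

open Set Filter Topology Metric Function
open scoped ContDiff RealInnerProductSpace

noncomputable section

namespace Pool.Agent.U896.AL

open Pool.Agent.Y522.ML

variable {n : ℕ}

theorem final {Λ : Set (E n × E n)} (hΛ : LagT n Λ) {S : E n × E n → ℝ} (hS : Prim Λ S)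
    (H : E n × E n → ℝ) (hH : ContDiff ℝ ∞ H)
    (hHp : ∀ z (k : Fin n → ℤ), H (z.1 + latt k, z.2) = H z)
    (v : E n × E n → E n) (hv : ∀ z ∈ Λ, ∀ a, fderiv ℝ H z (0, a) = ⟪v z, a⟫)
    {C b δ : ℝ} (hb : 0 < b) (hδ : 0 < δ)
    (hC : ∀ z ∈ Λ, ∀ z' ∈ Λ, ‖z - z'‖ < δ →
      -C * ‖z.1 - z'.1‖ ^ 2 ≤ ⟪z.1 - z'.1, v z - v z'⟫ ∧
      b * ‖z.2 - z'.2‖ ≤ ‖v z - v z'‖ + C * ‖z.1 - z'.1‖) :
    ∃ ψ : E n × E n ≃ E n × E n, ContDiff ℝ ∞ ψ ∧ ContDiff ℝ ∞ ψ.symm ∧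
      (∀ z k, ψ (z.1 + latt k, z.2) = ((ψ z).1 + latt k, (ψ z).2)) ∧
      (∀ z a b, om (fderiv ℝ ψ z a) (fderiv ℝ ψ z b) = om a b) ∧ ψ '' {z | z.2 = 0} = Λ := by
  obtain ⟨R, hR⟩ := hΛ.bdd
  obtain ⟨z₀, hz₀⟩ := hΛ.nonempty
  have hR0 : 0 ≤ R := (norm_nonneg _).trans (hR _ hz₀)
  let χ : ContDiffBump (0 : E n) := ⟨R + 1, R + 2, by linarith, by linarith⟩
  have hχs : ContDiff ℝ ∞ (χ : E n → ℝ) := χ.contDiff
  have hχ1 : ∀ p, ‖p‖ ≤ R + 1 → χ p = 1 := fun p hp =>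
    χ.one_of_mem_closedBall (by rw [mem_closedBall_zero_iff]; exact hp)
  have hχ0 : ∀ p, R + 2 < ‖p‖ → χ p = 0 := fun p hp =>
    χ.zero_of_le_dist (by rw [dist_zero_right]; exact hp.le)
  -- the generating function
  obtain ⟨K, hKd⟩ : ∃ K : E n × E n → ℝ, K = fun w => χ w.2 * H w := ⟨_, rfl⟩
  have hK : ContDiff ℝ ∞ K := by
    rw [hKd]
    exact (hχs.comp contDiff_snd).mul hH
  have pK : ∀ w (k : Fin n → ℤ), K (w.1 + latt k, w.2) = K w := by
    intro w k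
    rw [hKd]
    simp only [hHp]
  have zK : ∀ w : E n × E n, R + 2 < ‖w.2‖ → K w = 0 := by
    intro w hw
    rw [hKd]
    simp only [hχ0 _ hw, zero_mul]
  obtain ⟨k₁, k₂, M, hM, s1, s2, hk, p1, p2, b1, b2, l1, l2⟩ := exists_grad K hK pK (R + 2) zK
  have hk2 : ∀ z ∈ Λ, k₂ z = v z := by
    intro z hz
    refine ext_inner_right ℝ fun a => ?_
    have h1 : ⟪k₂ z, a⟫ = fderiv ℝ K z (0, a) := by
      rw [hk]
      simp
    rw [h1, ← hv z hz a]
    have h2 : K =ᶠ[𝓝 z] H := by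
      have g1 : IsOpen {w : E n × E n | ‖w.2‖ < R + 1} := isOpen_lt (by fun_prop) (by fun_prop)
      have g2 : z ∈ {w : E n × E n | ‖w.2‖ < R + 1} := by
        show ‖z.2‖ < R + 1
        linarith [hR z hz]
      filter_upwards [g1.mem_nhds g2] with w hw
      rw [hKd]
      simp only
      rw [hχ1 _ (le_of_lt hw), one_mul]
    rw [h2.fderiv_eq]
  have z2 : ∀ w : E n × E n, R + 2 < ‖w.2‖ → k₂ w = 0 := by
    intro w hw
    refine ext_inner_right ℝ fun a => ?_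
    have h1 : ⟪k₂ w, a⟫ = fderiv ℝ K w (0, a) := by
      rw [hk]
      simp
    rw [h1, zeroD zK w hw]
    simp
  obtain ⟨L, hL, hd2⟩ := diff2 s2 p2 z2
  -- the constants
  obtain ⟨C', hC'⟩ : ∃ C' : ℝ, C' = max C 0 := ⟨_, rfl⟩
  have hc3 : C ≤ C' := by rw [hC']; exact le_max_left C 0
  have hc4 : 0 ≤ C' := by rw [hC']; exact le_max_right C 0
  have hglob : ∀ z ∈ Λ, ∀ z' ∈ Λ, ‖z - z'‖ < δ →
      -C' * ‖z.1 - z'.1‖ ^ 2 ≤ ⟪z.1 - z'.1, v z - v z'⟫ ∧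
      b * ‖z.2 - z'.2‖ ≤ ‖v z - v z'‖ + C' * ‖z.1 - z'.1‖ := by
    intro z hz z' hz' h1
    have hn : 0 ≤ ‖z.1 - z'.1‖ ^ 2 := by positivity
    have hn' : 0 ≤ ‖z.1 - z'.1‖ := norm_nonneg _
    obtain ⟨h2, h3⟩ := hC z hz z' hz' h1
    exact ⟨by nlinarith, by nlinarith⟩
  obtain ⟨T, hT⟩ : ∃ T : ℝ, T = 2 * M + 4 * C' + 8 * (L * M + M * M) / b + 8 * (L * M) + 1 :=
    ⟨_, rfl⟩
  have hLM : 0 ≤ 8 * (L * M + M * M) / b := by positivity
  have hLM' : 0 ≤ 8 * (L * M) := by positivity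
  have hT1 : 1 ≤ T := by rw [hT]; linarith
  have hT0 : 0 < T := by linarith
  obtain ⟨t, htd⟩ : ∃ t : ℝ, t = 1 / T := ⟨_, rfl⟩
  have ht : 0 < t := by rw [htd]; positivity
  have htT : t * T = 1 := by rw [htd]; field_simp
  have ht1 : t ≤ 1 := by
    rw [htd, div_le_iff₀ hT0]
    linarith
  have htM : t * M ≤ 1 / 2 := by
    have h1 : t * (2 * M) ≤ t * T := mul_le_mul_of_nonneg_left (by rw [hT]; linarith) ht.le
    linarith
  have htC : 4 * t * C' ≤ 1 := by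
    have h1 : t * (4 * C') ≤ t * T := mul_le_mul_of_nonneg_left (by rw [hT]; linarith) ht.le
    linarith
  have htLM : 8 * t * (L * M) ≤ 1 := by
    have h1 : t * (8 * (L * M)) ≤ t * T := mul_le_mul_of_nonneg_left (by rw [hT]; linarith) ht.le
    linarith
  have htL : 8 * t * (L * M + M * M) ≤ b := by
    have h1 : t * (8 * (L * M + M * M) / b) ≤ t * T :=
      mul_le_mul_of_nonneg_left (by rw [hT]; linarith) ht.le
    rw [htT] at h1
    have h2 := mul_le_mul_of_nonneg_right h1 hb.le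
    have h3 : t * (8 * (L * M + M * M) / b) * b = 8 * t * (L * M + M * M) := by field_simp
    linarith
  obtain ⟨Φ, P1, P2, P3, P4, P5⟩ := exists_gen K hK s1 s2 hk p1 p2 l1 l2 ht.le htM
  -- the inverse is Lipschitz, and the local estimate
  have hest : ∀ z ∈ Λ, ∀ z' ∈ Λ, ‖z - z'‖ ≤ 3 * ‖Φ z - Φ z'‖ ∧
      (‖z - z'‖ < δ → t * b / (t * b + 16) * ‖Φ z - Φ z'‖ ≤ ‖(Φ z).1 - (Φ z').1‖) := by
    intro z hz z' hz'
    obtain ⟨w, w1, w2, w3⟩ := P5 z
    obtain ⟨w', w1', w2', w3'⟩ := P5 z'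
    have hwt : ∀ {k : E n × E n → E n}, (∀ w w', ‖k w - k w'‖ ≤ M * ‖w - w'‖) →
        t * ‖k w - k w'‖ ≤ 1 / 2 * ‖w - w'‖ := by
      intro k hk
      calc t * ‖k w - k w'‖ ≤ t * (M * ‖w - w'‖) := mul_le_mul_of_nonneg_left (hk _ _) ht.le
        _ = (t * M) * ‖w - w'‖ := by ring
        _ ≤ _ := mul_le_mul_of_nonneg_right htM (norm_nonneg _)
    have hw1 := hwt l1
    have hw2 := hwt l2
    have e6 : (Φ z).1 - (Φ z').1 = w.1 - w'.1 := by rw [w3, w3']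
    have hz1 : z.1 - z'.1 = (w.1 - w'.1) - t • (k₂ w - k₂ w') := by
      have h1 : z.1 = w.1 - t • k₂ w := by rw [w2]; abel
      have h2 : z'.1 = w'.1 - t • k₂ w' := by rw [w2']; abel
      rw [h1, h2, smul_sub]
      abel
    have hz2 : z.2 - z'.2 = w.2 - w'.2 := by rw [w1, w1']
    constructor
    · have f1 : ‖w - w'‖ ≤ 2 * ‖Φ z - Φ z'‖ := by
        have g1 : ‖w.1 - w'.1‖ ≤ ‖Φ z - Φ z'‖ := by
          rw [← e6]
          exact norm_fst_le (Φ z - Φ z')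
        have g2 : ‖w.2 - w'.2‖ ≤ ‖Φ z - Φ z'‖ + 1 / 2 * ‖w - w'‖ := by
          have h1 : w.2 - w'.2 = ((Φ z).2 - (Φ z').2) + t • (k₁ w - k₁ w') := by
            rw [w3, w3', smul_sub]
            show w.2 - w'.2 = (w.2 - t • k₁ w) - (w'.2 - t • k₁ w') + _
            abel
          rw [h1]
          refine (norm_add_le _ _).trans (add_le_add (norm_snd_le (Φ z - Φ z')) ?_)
          rw [norm_smul, Real.norm_of_nonneg ht.le]
          exact hw1
        have g3 : ‖w - w'‖ ≤ ‖Φ z - Φ z'‖ + 1 / 2 * ‖w - w'‖ := by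
          conv_lhs => rw [Prod.norm_def]
          refine max_le ?_ g2
          have := norm_nonneg (w - w')
          exact g1.trans (by linarith)
        linarith
      rw [Prod.norm_def]
      refine max_le ?_ ?_
      · show ‖z.1 - z'.1‖ ≤ _
        rw [hz1]
        refine (norm_sub_le _ _).trans ?_
        rw [norm_smul, Real.norm_of_nonneg ht.le]
        have g1 : ‖w.1 - w'.1‖ ≤ ‖w - w'‖ := norm_fst_le (w - w')
        linarith
      · show ‖z.2 - z'.2‖ ≤ _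
        rw [hz2]
        have g1 : ‖w.2 - w'.2‖ ≤ ‖w - w'‖ := norm_snd_le (w - w')
        linarith [norm_nonneg (w - w')]
    intro hzδ
    obtain ⟨g1, g2⟩ := hglob z hz z' hz' hzδ
    obtain ⟨Er, hEr⟩ : ∃ Er : E n, Er = (k₂ w - k₂ w') - (k₂ z - k₂ z') := ⟨_, rfl⟩
    have hww : ‖w - w'‖ ≤ ‖w.1 - w'.1‖ + ‖z.2 - z'.2‖ := by
      rw [Prod.norm_def]
      refine max_le ?_ ?_
      · show ‖w.1 - w'.1‖ ≤ _
        linarith [norm_nonneg (z.2 - z'.2)]
      · show ‖w.2 - w'.2‖ ≤ _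
        rw [w1, w1']
        linarith [norm_nonneg (w.1 - w'.1)]
    have hzz : ‖z - z'‖ ≤ ‖z.1 - z'.1‖ + ‖z.2 - z'.2‖ := by
      rw [Prod.norm_def]
      refine max_le ?_ ?_
      · show ‖z.1 - z'.1‖ ≤ _
        linarith [norm_nonneg (z.2 - z'.2)]
      · show ‖z.2 - z'.2‖ ≤ _
        linarith [norm_nonneg (z.1 - z'.1)]
    have hErb : ‖Er‖ ≤ L * (t * M) * (‖z.1 - z'.1‖ + ‖z.2 - z'.2‖) +
        M * (t * M * (‖w.1 - w'.1‖ + ‖z.2 - z'.2‖)) := by
      obtain ⟨τ, hτ⟩ : ∃ τ : E n × E n, τ = (t • k₂ w, 0) := ⟨_, rfl⟩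
      obtain ⟨τ', hτ'⟩ : ∃ τ' : E n × E n, τ' = (t • k₂ w', 0) := ⟨_, rfl⟩
      have a1 : w = z + τ := by
        rw [hτ]
        exact Prod.ext w2 (by rw [w1]; simp)
      have a2 : w' = z' + τ' := by
        rw [hτ']
        exact Prod.ext w2' (by rw [w1']; simp)
      have a3 : Er = ((k₂ (z + τ) - k₂ (z' + τ)) - (k₂ z - k₂ z')) +
          (k₂ (z' + τ) - k₂ (z' + τ')) := by
        rw [hEr, ← a1, ← a2]
        abel
      have a4 : ‖τ‖ ≤ t * M := by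
        rw [hτ, Prod.norm_def]
        refine max_le ?_ ?_
        · show ‖t • k₂ w‖ ≤ _
          rw [norm_smul, Real.norm_of_nonneg ht.le]
          exact mul_le_mul_of_nonneg_left (b2 w) ht.le
        · show ‖(0 : E n)‖ ≤ _
          rw [norm_zero]
          positivity
      have a5 : ‖τ - τ'‖ ≤ t * (M * ‖w - w'‖) := by
        rw [hτ, hτ', Prod.norm_def]
        refine max_le ?_ ?_
        · show ‖t • k₂ w - t • k₂ w'‖ ≤ _
          rw [← smul_sub, norm_smul, Real.norm_of_nonneg ht.le]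
          exact mul_le_mul_of_nonneg_left (l2 w w') ht.le
        · show ‖(0 : E n) - 0‖ ≤ _
          rw [sub_zero, norm_zero]
          positivity
      rw [a3]
      refine (norm_add_le _ _).trans (add_le_add ((hd2 z z' τ).trans ?_) ((l2 _ _).trans ?_))
      · exact mul_le_mul (mul_le_mul_of_nonneg_left a4 hL) hzz (norm_nonneg _) (by positivity)
      · have a6 : z' + τ - (z' + τ') = τ - τ' := by abel
        rw [a6]
        refine mul_le_mul_of_nonneg_left (a5.trans ?_) hM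
        calc t * (M * ‖w - w'‖) = t * M * ‖w - w'‖ := by ring
          _ ≤ _ := mul_le_mul_of_nonneg_left hww (by positivity)
    have e1 : z.1 - z'.1 + t • (v z - v z') = (w.1 - w'.1) - t • Er := by
      rw [hz1, hEr, hk2 z hz, hk2 z' hz', smul_sub t (k₂ w - k₂ w')]
      abel
    have e2 : ‖z.1 - z'.1 + t • (v z - v z')‖ ≤ ‖w.1 - w'.1‖ +
        t * (L * (t * M) * (‖z.1 - z'.1‖ + ‖z.2 - z'.2‖) +
        M * (t * M * (‖w.1 - w'.1‖ + ‖z.2 - z'.2‖))) := by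
      rw [e1]
      refine (norm_sub_le _ _).trans (add_le_add le_rfl ?_)
      rw [norm_smul, Real.norm_of_nonneg ht.le]
      exact mul_le_mul_of_nonneg_left hErb ht.le
    have e3 : 1 / 2 * ‖z.1 - z'.1‖ ^ 2 + t ^ 2 * ‖v z - v z'‖ ^ 2 ≤
        ‖z.1 - z'.1 + t • (v z - v z')‖ ^ 2 := by
      have h1 : ‖z.1 - z'.1 + t • (v z - v z')‖ ^ 2 = ‖z.1 - z'.1‖ ^ 2 +
          2 * t * ⟪z.1 - z'.1, v z - v z'⟫ + t ^ 2 * ‖v z - v z'‖ ^ 2 := by
        rw [norm_add_sq_real, norm_smul, inner_smul_right, Real.norm_of_nonneg ht.le]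
        ring
      rw [h1]
      have h3 : 2 * t * (-C' * ‖z.1 - z'.1‖ ^ 2) ≤
          2 * t * ⟪z.1 - z'.1, v z - v z'⟫ := mul_le_mul_of_nonneg_left g1 (by positivity)
      have h6 : 4 * t * C' * ‖z.1 - z'.1‖ ^ 2 ≤ 1 * ‖z.1 - z'.1‖ ^ 2 :=
        mul_le_mul_of_nonneg_right htC (by positivity)
      nlinarith
    have e4 : t * b * ‖z.2 - z'.2‖ ≤ 8 * ‖w.1 - w'.1‖ :=
      arith2 ht ht1 hb (norm_nonneg _) (norm_nonneg _) (norm_nonneg _) (norm_nonneg _)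
        (norm_nonneg _) hc4 hL hM htM htC htL htLM e2 e3 g2
    have e5 : ‖Φ z - Φ z'‖ ≤ ‖w.1 - w'.1‖ + 2 * ‖z.2 - z'.2‖ := by
      rw [w3, w3', Prod.norm_def]
      refine max_le ?_ ?_
      · show ‖w.1 - w'.1‖ ≤ _
        linarith [norm_nonneg (z.2 - z'.2)]
      · show ‖w.2 - t • k₁ w - (w'.2 - t • k₁ w')‖ ≤ _
        have h1 : w.2 - t • k₁ w - (w'.2 - t • k₁ w') = (z.2 - z'.2) - t • (k₁ w - k₁ w') := by
          rw [w1, w1', smul_sub]
          abel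
        rw [h1]
        refine (norm_sub_le _ _).trans ?_
        rw [norm_smul, Real.norm_of_nonneg ht.le]
        linarith [norm_nonneg (w.1 - w'.1), norm_nonneg (z.2 - z'.2)]
    rw [e6, div_mul_eq_mul_div, div_le_iff₀ (by positivity)]
    have h7 : t * b * ‖Φ z - Φ z'‖ ≤ t * b * (‖w.1 - w'.1‖ + 2 * ‖z.2 - z'.2‖) :=
      mul_le_mul_of_nonneg_left e5 (by positivity)
    nlinarith
  have hlag : LagT n (Φ '' Λ) := by
    refine push hΛ Φ P1 P2 P3 P4 ⟨R + t * M, fun z hz => ?_⟩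
    obtain ⟨w, w1, w2, w3⟩ := P5 z
    rw [w3]
    refine (norm_sub_le _ _).trans (add_le_add (by rw [w1]; exact hR z hz) ?_)
    rw [norm_smul, Real.norm_of_nonneg ht.le]
    exact mul_le_mul_of_nonneg_left (b1 w) ht.le
  obtain ⟨S', hS'⟩ := prim_push hS K hK s2 hk p2 pK Φ P2 P3 P5
  obtain ⟨c', hc', hgl⟩ := glob hlag hS' (c := t * b / (t * b + 16)) (δ := δ / 3)
    (by positivity) (by positivity) (by
      rintro _ ⟨z, hz, rfl⟩ _ ⟨z', hz', rfl⟩ h1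
      obtain ⟨h2, h3⟩ := hest z hz z' hz'
      exact h3 (by linarith))
  obtain ⟨ψ, q1, q2, q3, q4, q5⟩ := main hlag (fun _ => 0) contDiff_const
    (fun p v w => by simp) (c := c') hc' (by
      intro z hz z' hz'
      simp only [add_zero]
      exact hgl z hz z' hz')
  have P3' : ∀ z (k : Fin n → ℤ),
      Φ.symm (z.1 + latt k, z.2) = ((Φ.symm z).1 + latt k, (Φ.symm z).2) := by
    intro z k
    rw [Equiv.symm_apply_eq, P3]
    simp
  have hdΦ : ∀ y a, fderiv ℝ Φ (Φ.symm y) (fderiv ℝ Φ.symm y a) = a := by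
    intro y a
    have f1 : HasFDerivAt Φ (fderiv ℝ Φ (Φ.symm y)) (Φ.symm y) :=
      (P1.differentiable (by simp)).differentiableAt.hasFDerivAt
    have f3 : HasFDerivAt Φ.symm (fderiv ℝ Φ.symm y) y :=
      (P2.differentiable (by simp)).differentiableAt.hasFDerivAt
    have f5 : HasFDerivAt (fun y => Φ (Φ.symm y))
        ((fderiv ℝ Φ (Φ.symm y)).comp (fderiv ℝ Φ.symm y)) y := f1.comp y f3
    have f6 : (fun y => Φ (Φ.symm y)) = id := by
      funext y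
      simp
    rw [f6] at f5
    exact congrArg (fun L : E n × E n →L[ℝ] E n × E n => L a) (f5.unique (hasFDerivAt_id y))
  refine ⟨ψ.trans Φ.symm, P2.comp q1, q2.comp P1, fun z k => ?_, fun z a b => ?_, ?_⟩
  · show Φ.symm (ψ (z.1 + latt k, z.2)) = ((Φ.symm (ψ z)).1 + latt k, (Φ.symm (ψ z)).2)
    rw [q3, P3']
  · have f1 : HasFDerivAt ψ (fderiv ℝ ψ z) z :=
      (q1.differentiable (by simp)).differentiableAt.hasFDerivAt
    have f2 : HasFDerivAt Φ.symm (fderiv ℝ Φ.symm (ψ z)) (ψ z) :=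
      (P2.differentiable (by simp)).differentiableAt.hasFDerivAt
    have f3 : fderiv ℝ (ψ.trans Φ.symm) z = (fderiv ℝ Φ.symm (ψ z)).comp (fderiv ℝ ψ z) :=
      (f2.comp z f1).fderiv
    rw [f3]
    show om (fderiv ℝ Φ.symm (ψ z) (fderiv ℝ ψ z a)) (fderiv ℝ Φ.symm (ψ z) (fderiv ℝ ψ z b)) = _
    rw [← P4 (Φ.symm (ψ z)), hdΦ, hdΦ, q4]
  · rw [Equiv.coe_trans, image_comp, q5, ← image_comp, Equiv.symm_comp_self, image_id]

end Pool.Agent.U896.AL
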